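import Pool.Agent.W489.Stubs
import Pool.Agent.Helper113.Gorin.Schottky
import Pool.Agent.Helper113.Gorin.G_big_picard
import Pool.Agent.Helper113.Gorin.G_end_growth
import Pool.Agent.Helper113.Gorin.G_end_bounded

set_option autoImplicit false

open Metric Set Topology Filter

namespace Pool.Agent.W84

open H113G W489

/-! ### growth -/

/-- exponential growth in a half plane -/
def Gr (φ : ℂ → ℂ) : Prop :=
  ∃ A C c' : ℝ, 0 ≤ C ∧ ∀ s : ℂ, c' < s.re → ‖φ s‖ ≤ C * Real.exp (A * s.re)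

theorem Gr.of {φ : ℂ → ℂ} (h : ∃ A C c' : ℝ, ∀ s : ℂ, c' < s.re → ‖φ s‖ ≤ C * Real.exp (A * s.re)) :
    Gr φ := by
  obtain ⟨A, C, c', h⟩ := h
  refine ⟨A, |C|, c', abs_nonneg _, fun s hs => (h s hs).trans ?_⟩
  exact mul_le_mul_of_nonneg_right (le_abs_self C) (Real.exp_pos _).le

theorem Gr.one : Gr (fun _ => 1) := ⟨0, 1, 0, zero_le_one, fun s _ => by simp⟩

theorem Gr.mul {φ ψ : ℂ → ℂ} (h1 : Gr φ) (h2 : Gr ψ) : Gr (fun s => φ s * ψ s) := by
  obtain ⟨A, C, c, hC, h⟩ := h1
  obtain ⟨A', C', c', hC', h'⟩ := h2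
  refine ⟨A + A', C * C', max c c', mul_nonneg hC hC', fun s hs => ?_⟩
  have e1 := h s ((le_max_left _ _).trans_lt hs)
  have e2 := h' s ((le_max_right _ _).trans_lt hs)
  rw [norm_mul]
  calc ‖φ s‖ * ‖ψ s‖ ≤ (C * Real.exp (A * s.re)) * (C' * Real.exp (A' * s.re)) :=
        mul_le_mul e1 e2 (norm_nonneg _) (mul_nonneg hC (Real.exp_pos _).le)
    _ = C * C' * Real.exp ((A + A') * s.re) := by
        rw [add_mul, Real.exp_add]; ring

theorem Gr.pow {φ : ℂ → ℂ} (h1 : Gr φ) (n : ℕ) : Gr (fun s => φ s ^ n) := by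
  induction n with
  | zero => simpa using Gr.one
  | succ n ih => simpa only [pow_succ] using ih.mul h1

theorem Gr.zpow {φ : ℂ → ℂ} (h1 : Gr φ) (h2 : Gr (fun s => (φ s)⁻¹)) (n : ℤ) :
    Gr (fun s => φ s ^ n) := by
  cases n with
  | ofNat n => simpa using h1.pow n
  | negSucc n =>
    have := h2.pow (n + 1)
    simpa only [zpow_negSucc, inv_pow] using this

theorem Gr.prod {ι : Type} (s : Finset ι) {φ : ι → ℂ → ℂ} (h : ∀ i ∈ s, Gr (φ i)) :
    Gr (fun z => ∏ i ∈ s, φ i z) := by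
  classical
  induction s using Finset.induction_on with
  | empty => simpa using Gr.one
  | insert a s ha ih =>
    have h1 := (h a (Finset.mem_insert_self _ _)).mul
      (ih (fun i hi => h i (Finset.mem_insert_of_mem hi)))
    simpa only [Finset.prod_insert ha] using h1

/-! ### holomorphic functions on `Y` -/

theorem HolOn.continuousOn {m : ℕ} {Y : Set (Fin m → ℂ)} {f : (Fin m → ℂ) → ℂ} (hf : HolOn Y f) :
    ContinuousOn f Y := by
  intro p hp
  obtain ⟨U, hU, hpU, h, hd, he⟩ := hf p hp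
  have h1 : ContinuousWithinAt h Y p :=
    ((hd p hpU).differentiableAt (hU.mem_nhds hpU)).continuousAt.continuousWithinAt
  refine h1.congr_of_eventuallyEq ?_ (he p hp hpU).symm
  filter_upwards [self_mem_nhdsWithin, mem_nhdsWithin_of_mem_nhds (hU.mem_nhds hpU)] with y h2 h3
  exact (he y h2 h3).symm

theorem HolOn.comp {m : ℕ} {Y : Set (Fin m → ℂ)} {f : (Fin m → ℂ) → ℂ} (hf : HolOn Y f)
    {B : Set ℂ} (hB : IsOpen B) {σ : ℂ → (Fin m → ℂ)} (hσ : DifferentiableOn ℂ σ B)
    (hY : ∀ t ∈ B, σ t ∈ Y) : DifferentiableOn ℂ (fun t => f (σ t)) B := by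
  intro t ht
  apply DifferentiableAt.differentiableWithinAt
  obtain ⟨U, hU, hpU, h, hd, he⟩ := hf (σ t) (hY t ht)
  have h1 : DifferentiableAt ℂ σ t := hσ.differentiableAt (hB.mem_nhds ht)
  have h2 : DifferentiableAt ℂ h (σ t) := hd.differentiableAt (hU.mem_nhds hpU)
  have h3 : DifferentiableAt ℂ (fun t => h (σ t)) t := h2.comp t h1
  refine h3.congr_of_eventuallyEq ?_
  filter_upwards [hB.mem_nhds ht, h1.continuousAt.preimage_mem_nhds (hU.mem_nhds hpU)] with x h4 h5
  exact (he _ (hY x h4) h5).symm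

/-! ### Liouville with finitely many punctures -/

theorem liouville_punct (S : Set ℂ) (hS : S.Finite) : ∀ f : ℂ → ℂ, DifferentiableOn ℂ f Sᶜ →
    (∃ C : ℝ, ∀ t ∈ Sᶜ, ‖f t‖ ≤ C) → ∀ t ∈ Sᶜ, ∀ t' ∈ Sᶜ, f t = f t' := by
  induction S, hS using Set.Finite.induction_on with
  | empty =>
    intro f hf hb t _ t' _
    rw [compl_empty] at hf hb
    obtain ⟨C, hC⟩ := hb
    exact (differentiableOn_univ.1 hf).apply_eq_apply_of_bounded
      (isBounded_iff_forall_norm_le.2 ⟨C, by rintro _ ⟨x, rfl⟩; exact hC x (mem_univ _)⟩) t t'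
  | @insert a S ha hS ih =>
    intro f hf hb t ht t' ht'
    obtain ⟨C, hC⟩ := hb
    have hSo : IsOpen Sᶜ := hS.isClosed.isOpen_compl
    have hnh : Sᶜ ∈ 𝓝 a := hSo.mem_nhds ha
    have hsub : Sᶜ \ {a} = (insert a S)ᶜ := by
      ext x; simp only [Set.mem_sdiff, mem_compl_iff, mem_singleton_iff, mem_insert_iff, not_or]; tauto
    have h1 := Complex.differentiableOn_update_limUnder_of_bddAbove (f := f) hnh
      (by rw [hsub]; exact hf)
      ⟨C, by rintro _ ⟨x, hx, rfl⟩; rw [hsub] at hx; exact hC x hx⟩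
    set g := Function.update f a (limUnder (𝓝[≠] a) f) with hg
    have h2 := ih g h1 ⟨max C ‖g a‖, fun x hx => by
      by_cases hxa : x = a
      · rw [hxa]; exact le_max_right _ _
      · have : g x = f x := Function.update_of_ne hxa _ _
        rw [this]
        exact (hC x (by rw [← hsub]; exact ⟨hx, hxa⟩)).trans (le_max_left _ _)⟩
    have h3 : ∀ x ∈ (insert a S)ᶜ, g x = f x ∧ x ∈ Sᶜ := fun x hx => by
      rw [← hsub] at hx
      exact ⟨Function.update_of_ne hx.2 _ _, hx.1⟩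
    rw [← (h3 t ht).1, ← (h3 t' ht').1]
    exact h2 t (h3 t ht).2 t' (h3 t' ht').2


/-! ### the covering over a line -/

section line

variable {m k e : ℕ} {Y : Set (Fin m → ℂ)} {pr : (Fin m → ℂ) → (Fin k → ℂ)}
  {δ : MvPolynomial (Fin k) ℂ}

theorem local_sections (hc : Cov Y pr δ e) (v : Fin k → ℂ) (t₀ : ℂ)
    (ht₀ : MvPolynomial.eval (t₀ • v) δ ≠ 0) : ∃ ρ : ℝ, 0 < ρ ∧ ∃ σ : Fin e → ℂ → (Fin m → ℂ),
      (∀ i, DifferentiableOn ℂ (σ i) (ball t₀ ρ)) ∧
      ∀ t ∈ ball t₀ ρ, MvPolynomial.eval (t • v) δ ≠ 0 ∧ Function.Injective (fun i => σ i t) ∧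
        {y | y ∈ Y ∧ pr y = t • v} = Set.range (fun i => σ i t) := by
  obtain ⟨r, hr, s, hs, h⟩ := hc.sections (t₀ • v) ht₀
  have hcont : ContinuousAt (fun t : ℂ => t • v) t₀ := by fun_prop
  obtain ⟨ρ, hρ, hρ'⟩ := Metric.mem_nhds_iff.1 (hcont.preimage_mem_nhds (ball_mem_nhds _ hr))
  refine ⟨ρ, hρ, fun i t => s i (t • v), fun i => ?_, fun t ht => h (t • v) (hρ' ht)⟩
  refine (hs i).comp (t := ball (t₀ • v) r) ?_ (fun t ht => hρ' ht)
  have : Differentiable ℂ (fun t : ℂ => t • v) := by fun_prop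
  exact this.differentiableOn

theorem finite_bad (hc : Cov Y pr δ e) (v : Fin k → ℂ) :
    {t : ℂ | MvPolynomial.eval (t • v) δ = 0}.Finite := by
  set P : Polynomial ℂ := MvPolynomial.aeval (fun i => Polynomial.X * Polynomial.C (v i)) δ with hP
  have hev : ∀ t : ℂ, P.eval t = MvPolynomial.eval (t • v) δ := by
    intro t
    have h1 : P.eval t = (Polynomial.aeval t).toRingHom P := by simp
    rw [hP]
    have h2 : (Polynomial.aeval t : Polynomial ℂ →ₐ[ℂ] ℂ).comp
        (MvPolynomial.aeval (fun i => Polynomial.X * Polynomial.C (v i))) =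
        MvPolynomial.aeval (t • v) := by
      ext i
      simp only [AlgHom.comp_apply, MvPolynomial.aeval_X, map_mul, Polynomial.aeval_X,
        Polynomial.aeval_C, Pi.smul_apply, smul_eq_mul, Algebra.algebraMap_self, RingHom.id_apply]
    have h3 := congrArg (fun φ => φ δ) h2
    simp only [AlgHom.comp_apply] at h3
    rw [MvPolynomial.aeval_eq_eval] at h3
    rw [← h3]
    simp [Polynomial.aeval_def]
  have hne : P ≠ 0 := by
    intro h0
    have := hev 0
    rw [h0, Polynomial.eval_zero, zero_smul] at this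
    exact hc.base this.symm
  refine (P.roots.toFinset.finite_toSet).subset ?_
  intro t ht
  simp only [Finset.mem_coe, Multiset.mem_toFinset, Polynomial.mem_roots hne, Polynomial.IsRoot]
  rw [hev]; exact ht

theorem smul_inj {v : Fin k → ℂ} (hv : v ≠ 0) {t t' : ℂ} (h : t • v = t' • v) : t = t' :=
  smul_left_injective ℂ hv h


theorem component_dichotomy {E : Type*} [TopologicalSpace E] {A B : Set E} {y₀ : E}
    (hB : IsPreconnected B) (hBA : B ⊆ A) :
    B ⊆ connectedComponentIn A y₀ ∨ ∀ b ∈ B, b ∉ connectedComponentIn A y₀ := by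
  by_cases h : ∃ b ∈ B, b ∈ connectedComponentIn A y₀
  · obtain ⟨b, hb, hb'⟩ := h
    left
    rw [connectedComponentIn_eq hb']
    exact hB.subset_connectedComponentIn hb hBA
  · right
    intro b hb hb'
    exact h ⟨b, hb, hb'⟩

open Classical in
/-- the function on `Y` modified outside of the component -/
noncomputable def ut (M : Set (Fin m → ℂ)) (u : (Fin m → ℂ) → ℂ) (y : Fin m → ℂ) : ℂ :=
  if y ∈ M then u y else 1

/-- the elementary function of the values on the fibre -/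
noncomputable def Psi (Y : Set (Fin m → ℂ)) (pr : (Fin m → ℂ) → (Fin k → ℂ)) (v : Fin k → ℂ)
    (w : (Fin m → ℂ) → ℂ) (T : ℂ) (t : ℂ) : ℂ :=
  ∏ᶠ y ∈ {y | y ∈ Y ∧ pr y = t • v}, (T - w y)

theorem Psi_eq {v : Fin k → ℂ} {w : (Fin m → ℂ) → ℂ} {T t : ℂ} {g : Fin e → (Fin m → ℂ)}
    (hinj : Function.Injective g) (hg : {y | y ∈ Y ∧ pr y = t • v} = Set.range g) :
    Psi Y pr v w T t = ∏ i, (T - w (g i)) := by
  unfold Psi
  rw [hg, finprod_mem_range hinj, finprod_eq_prod_of_fintype]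

theorem T6_main (hc : Cov Y pr δ e) {v : Fin k → ℂ} (hv : v ≠ 0) {c : ℝ} {κ : ℕ}
    {Λ : Fin e → ℂ → (Fin m → ℂ)} (hΛ : EndLift Y pr δ e v c κ Λ) {y₀ : Fin m → ℂ} (hy₀ : y₀ ∈ Y)
    (hpr : pr y₀ = 0) {ι : Type} [Fintype ι] (f : ι → (Fin m → ℂ) → ℂ) (hf : ∀ l, HolOn Y (f l))
    (h01 : ∀ l, ∀ y ∈ Y, f l y ≠ 0 ∧ f l y ≠ 1) (a : ι → ℤ)
    (hlog : HasLog (connectedComponentIn (LineP Y pr δ v) y₀) (fun y => ∏ l, f l y ^ a l)) :
    ∀ y ∈ connectedComponentIn (LineP Y pr δ v) y₀, ∏ l, f l y ^ a l = ∏ l, f l y₀ ^ a l := by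
  classical
  set A := LineP Y pr δ v with hA
  set M := connectedComponentIn A y₀ with hM
  set u : (Fin m → ℂ) → ℂ := fun y => ∏ l, f l y ^ a l with hu
  have hy₀A : y₀ ∈ A := ⟨hy₀, 0, by rw [hpr, zero_smul], by rw [zero_smul]; exact hc.base⟩
  have hy₀M : y₀ ∈ M := mem_connectedComponentIn hy₀A
  have hMA : M ⊆ A := connectedComponentIn_subset _ _
  have hAY : A ⊆ Y := fun y hy => hy.1
  -- continuity of u
  have hfc : ∀ l, ContinuousOn (f l) Y := fun l => HolOn.continuousOn (hf l)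
  have huc : ContinuousOn u Y := by
    refine continuousOn_finsetProd _ (fun l _ => ?_)
    exact (hfc l).zpow₀ (a l) (fun y hy => Or.inl (h01 l y hy).1)
  -- composition with sections
  have hucomp : ∀ (B : Set ℂ), IsOpen B → ∀ σ : ℂ → (Fin m → ℂ), DifferentiableOn ℂ σ B →
      (∀ t ∈ B, σ t ∈ Y) → DifferentiableOn ℂ (fun t => u (σ t)) B := by
    intro B hB σ hσ hY
    refine DifferentiableOn.fun_finsetProd (fun l _ => ?_)
    intro t ht
    exact ((HolOn.comp (hf l) hB hσ hY) t ht).zpow (Or.inl (h01 l _ (hY t ht)).1)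
  set S : Set ℂ := {t : ℂ | MvPolynomial.eval (t • v) δ = 0} with hS
  have hSfin : S.Finite := finite_bad hc v
  set w := ut M u with hw
  -- values of w along a connected section
  have hsec : ∀ (B : Set ℂ), IsOpen B → IsPreconnected B → ∀ σ : ℂ → (Fin m → ℂ),
      DifferentiableOn ℂ σ B → (∀ t ∈ B, σ t ∈ A) →
      ((∀ t ∈ B, w (σ t) = u (σ t) ∧ σ t ∈ M) ∨ (∀ t ∈ B, w (σ t) = 1)) := by
    intro B hB hBc σ hσ hY
    have h1 : IsPreconnected (σ '' B) := hBc.image σ hσ.continuousOn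
    rcases component_dichotomy (y₀ := y₀) (A := A) h1
      (by rintro _ ⟨x, hx, rfl⟩; exact hY x hx) with h | h
    · left
      intro t ht
      have h2 : σ t ∈ M := h (mem_image_of_mem σ ht)
      exact ⟨if_pos h2, h2⟩
    · right
      intro t ht
      exact if_neg (h _ (mem_image_of_mem σ ht))
  have hdiff : ∀ T : ℂ, DifferentiableOn ℂ (Psi Y pr v w T) Sᶜ := by
    intro T t₀ ht₀
    apply DifferentiableAt.differentiableWithinAt
    obtain ⟨ρ, hρ, σ, hσ, hσ2⟩ := local_sections hc v t₀ ht₀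
    have h1 : ∀ t ∈ ball t₀ ρ, ∀ i, σ i t ∈ A := by
      intro t ht i
      obtain ⟨e1, e2, e3⟩ := hσ2 t ht
      have e4 : σ i t ∈ {y | y ∈ Y ∧ pr y = t • v} := by rw [e3]; exact ⟨i, rfl⟩
      exact ⟨e4.1, t, e4.2, e1⟩
    have h2 : ∀ i, DifferentiableOn ℂ (fun t => w (σ i t)) (ball t₀ ρ) := by
      intro i
      rcases hsec (ball t₀ ρ) isOpen_ball (convex_ball _ _).isPreconnected (σ i) (hσ i)
        (fun t ht => h1 t ht i) with h | h
      · exact (hucomp _ isOpen_ball (σ i) (hσ i) (fun t ht => hAY (h1 t ht i))).congr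
          (fun t ht => (h t ht).1)
      · exact (differentiableOn_const 1).congr h
    have h3 : DifferentiableOn ℂ (fun t => ∏ i, (T - w (σ i t))) (ball t₀ ρ) :=
      DifferentiableOn.fun_finsetProd (fun i _ => (differentiableOn_const T).sub (h2 i))
    have h4 : DifferentiableOn ℂ (Psi Y pr v w T) (ball t₀ ρ) :=
      h3.congr (fun t ht => Psi_eq (hσ2 t ht).2.1 (hσ2 t ht).2.2)
    exact h4.differentiableAt (ball_mem_nhds _ hρ)
  -- bound at infinity
  have hinf : ∃ B R : ℝ, ∀ s : ℂ, R < s.re → ∀ i, ‖w (Λ i s)‖ ≤ B := by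
    have hHo : IsOpen {s : ℂ | c < s.re} := isOpen_lt continuous_const Complex.continuous_re
    have hHc : IsPreconnected {s : ℂ | c < s.re} := (convex_halfSpace_re_gt c).isPreconnected
    have hΛA : ∀ i, ∀ s ∈ {s : ℂ | c < s.re}, Λ i s ∈ A := by
      intro i s hs
      have h1 : Λ i s ∈ {y | y ∈ Y ∧ pr y = Complex.exp s • v} := by
        rw [hΛ.fib s hs]; exact ⟨i, rfl⟩
      exact ⟨h1.1, _, h1.2, hΛ.ne s hs⟩
    have key : ∀ i, ∃ B R : ℝ, ∀ s : ℂ, R < s.re → ‖w (Λ i s)‖ ≤ B := by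
      intro i
      rcases hsec _ hHo hHc (Λ i) (hΛ.diff i) (hΛA i) with h | h
      · obtain ⟨lg, hlc, hle⟩ := hlog
        have hYi : ∀ s ∈ {s : ℂ | c < s.re}, Λ i s ∈ Y := fun s hs => hAY (hΛA i s hs)
        have hgr : Gr (fun s => u (Λ i s)) := by
          refine Gr.prod Finset.univ (φ := fun l s => f l (Λ i s) ^ a l) (fun l _ => ?_)
          have d1 : DifferentiableOn ℂ (fun s => f l (Λ i s)) {s : ℂ | c < s.re} :=
            HolOn.comp (hf l) hHo (hΛ.diff i) hYi
          refine Gr.zpow (φ := fun s => f l (Λ i s)) ?_ ?_ (a l)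
          · refine Gr.of (end_growth (fun hr hf h0 h1 => big_picard schottky_all hr hf h0 h1)
              hΛ.pos d1 ?_ ?_ ?_)
            · intro s hs; rw [hΛ.per i s hs]
            · intro s hs; exact (h01 l _ (hYi s hs)).1
            · intro s hs; exact (h01 l _ (hYi s hs)).2
          · refine Gr.of (end_growth (fun hr hf h0 h1 => big_picard schottky_all hr hf h0 h1)
              hΛ.pos (d1.inv (fun s hs => (h01 l _ (hYi s hs)).1)) ?_ ?_ ?_)
            · intro s hs
              change (f l (Λ i (s + 2 * Real.pi * κ * Complex.I)))⁻¹ = (f l (Λ i s))⁻¹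
              rw [hΛ.per i s hs]
            · intro s hs; exact inv_ne_zero (h01 l _ (hYi s hs)).1
            · intro s hs
              simp only [ne_eq, inv_eq_one]
              exact (h01 l _ (hYi s hs)).2
        obtain ⟨A', C', c', -, hgr'⟩ := hgr
        obtain ⟨C, c'', hb⟩ := end_bounded (φ := fun s => u (Λ i s)) (L := fun s => lg (Λ i s))
          hΛ.pos (hucomp _ hHo (Λ i) (hΛ.diff i) hYi)
          (fun s hs => by rw [← hle _ (h s hs).2]; exact Complex.exp_ne_zero _)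
          ⟨A', C', c', hgr'⟩
          (hlc.comp (hΛ.diff i).continuousOn (fun s hs => (h s hs).2))
          (fun s hs => hle _ (h s hs).2)
          (fun s hs => by rw [hΛ.per i s hs])
        refine ⟨C, max c c'', fun s hs => ?_⟩
        have h1 : c < s.re := (le_max_left _ _).trans_lt hs
        rw [(h s h1).1]
        exact hb s ((le_max_right _ _).trans_lt hs)
      · exact ⟨1, c, fun s hs => by rw [h s hs, norm_one]⟩
    choose B R hBR using key
    refine ⟨∑ i, |B i|, ∑ i, |R i|, fun s hs i => ?_⟩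
    refine (hBR i s (lt_of_le_of_lt ((le_abs_self _).trans
      (Finset.single_le_sum (f := fun i => |R i|) (fun _ _ => abs_nonneg _) (Finset.mem_univ i))) hs)).trans
      ((le_abs_self _).trans
      (Finset.single_le_sum (f := fun i => |B i|) (fun _ _ => abs_nonneg _) (Finset.mem_univ i)))
  -- the bound for Psi
  have hbound : ∀ T : ℂ, ∃ C : ℝ, ∀ t ∈ Sᶜ, ‖Psi Y pr v w T t‖ ≤ C := by
    intro T
    obtain ⟨B, R, hBR⟩ := hinf
    -- bounded part
    obtain ⟨R', hR'⟩ := hc.proper (Real.exp (max R c + 1) * ‖v‖)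
    have hK : IsCompact (Y ∩ closedBall 0 R') :=
      (isCompact_closedBall (0 : Fin m → ℂ) R').inter_left hc.closed
    obtain ⟨B', hB'⟩ := hK.exists_bound_of_continuousOn (huc.mono inter_subset_left)
    set BB := max 1 (max B B') with hBB
    have hall : ∀ t ∈ Sᶜ, ∀ y, y ∈ Y → pr y = t • v → ‖w y‖ ≤ BB := by
      intro t ht y hy hy2
      by_cases htR : ‖t‖ ≤ Real.exp (max R c + 1)
      · by_cases hyM : y ∈ M
        · have h1 : w y = u y := if_pos hyM
          rw [h1]
          refine (hB' y ⟨hy, ?_⟩).trans ((le_max_right _ _).trans (le_max_right _ _))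
          rw [mem_closedBall_zero_iff]
          apply hR' y hy
          rw [hy2, norm_smul]
          exact mul_le_mul_of_nonneg_right htR (norm_nonneg _)
        · have h1 : w y = 1 := if_neg hyM
          rw [h1, norm_one]
          exact le_max_left _ _
      · push Not at htR
        have ht0 : t ≠ 0 := by
          intro h0
          rw [h0, norm_zero] at htR
          exact absurd htR (not_lt.2 (Real.exp_pos _).le)
        have hre : max R c + 1 < (Complex.log t).re := by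
          rw [Complex.log_re, Real.lt_log_iff_exp_lt (norm_pos_iff.2 ht0)]
          exact htR
        have hre1 : R < (Complex.log t).re := lt_of_le_of_lt (le_max_left R c) (by linarith)
        have hre2 : c < (Complex.log t).re := lt_of_le_of_lt (le_max_right R c) (by linarith)
        have h1 : y ∈ {y | y ∈ Y ∧ pr y = Complex.exp (Complex.log t) • v} := by
          rw [Complex.exp_log ht0]; exact ⟨hy, hy2⟩
        rw [hΛ.fib _ hre2] at h1
        obtain ⟨i, hi⟩ := h1
        simp only at hi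
        rw [← hi]
        exact (hBR _ hre1 i).trans ((le_max_left _ _).trans (le_max_right _ _))
    refine ⟨(‖T‖ + BB) ^ e, fun t ht => ?_⟩
    obtain ⟨ρ, hρ, σ, hσ, hσ2⟩ := local_sections hc v t ht
    obtain ⟨e1, e2, e3⟩ := hσ2 t (mem_ball_self hρ)
    rw [Psi_eq e2 e3, norm_prod]
    refine (Finset.prod_le_prod (fun i _ => norm_nonneg _)
      (g := fun _ => ‖T‖ + BB) (fun i _ => ?_)).trans (by simp)
    have e4 : σ i t ∈ {y | y ∈ Y ∧ pr y = t • v} := by rw [e3]; exact ⟨i, rfl⟩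
    exact (norm_sub_le _ _).trans (add_le_add le_rfl (hall t ht _ e4.1 e4.2))
  -- conclusion
  have h0S : (0 : ℂ) ∈ Sᶜ := by
    change ¬ (MvPolynomial.eval ((0 : ℂ) • v) δ = 0)
    rw [zero_smul]; exact hc.base
  obtain ⟨ρ, hρ, σ, hσ, hσ2⟩ := local_sections hc v 0 h0S
  obtain ⟨e1, e2, e3⟩ := hσ2 0 (mem_ball_self hρ)
  have hvals : ∀ y ∈ M, u y ∈ Set.range (fun i => w (σ i 0)) := by
    intro y hy
    obtain ⟨hyY, t, ht, hδ⟩ := hMA hy
    have h1 := liouville_punct S hSfin (Psi Y pr v w (u y)) (hdiff (u y)) (hbound (u y)) t hδ 0 h0S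
    obtain ⟨ρ', hρ', σ', hσ', hσ2'⟩ := local_sections hc v t hδ
    obtain ⟨e1', e2', e3'⟩ := hσ2' t (mem_ball_self hρ')
    rw [Psi_eq e2' e3', Psi_eq e2 e3] at h1
    have h2 : y ∈ {y | y ∈ Y ∧ pr y = t • v} := ⟨hyY, ht⟩
    rw [e3'] at h2
    obtain ⟨i, hi⟩ := h2
    simp only at hi
    have h3 : ∏ i, (u y - w (σ' i t)) = 0 := by
      refine Finset.prod_eq_zero (Finset.mem_univ i) ?_
      rw [hi]
      have : w y = u y := if_pos hy
      rw [this, sub_self]
    rw [h3] at h1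
    obtain ⟨j, -, hj⟩ := Finset.prod_eq_zero_iff.1 h1.symm
    exact ⟨j, (sub_eq_zero.1 hj).symm⟩
  have himg : (u '' M).Subsingleton := by
    have h1 : IsPreconnected (u '' M) :=
      isPreconnected_connectedComponentIn.image u (huc.mono (hMA.trans hAY))
    refine Set.Subsingleton.anti (s := u '' M) (t := u '' M) ?_ subset_rfl
    have h2 : (u '' M).Finite := (Set.finite_range (fun i => w (σ i 0))).subset (by
      rintro _ ⟨y, hy, rfl⟩; exact hvals y hy)
    by_contra hns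
    exact (h1.infinite_of_nontrivial (Set.not_subsingleton_iff.1 hns)) h2
  intro y hy
  exact himg (mem_image_of_mem u hy) (mem_image_of_mem u hy₀M)

end line

/-- T6 -/
theorem T6 : S_T6 := by
  intro m k e Y pr δ hc v hv c κ Λ hΛ y₀ hy₀ hpr ι _ f hf h01 a hlog
  exact T6_main hc hv hΛ hy₀ hpr f hf h01 a hlog

end Pool.Agent.W84
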