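import Mathlib

/-!
# Edge boundaries in the Cayley graph of `ℤ` with respect to `{1, 8}`: optimal sets are not nested
-/

set_option autoImplicit false

namespace Pool.Agent.W84.Nest

/-- number of elements `x` of `A` with `x + u ∉ A` -/
def rn (A : Finset ℤ) (u : ℤ) : ℕ := (A.filter fun x => x + u ∉ A).card

lemma rn_neg (A : Finset ℤ) (u : ℤ) : rn A (-u) = rn A u := by
  have h1 : ∀ v : ℤ, rn A v + (A.filter fun x => x + v ∈ A).card = A.card := by
    intro v
    have := Finset.card_filter_add_card_filter_not (s := A) (fun x => x + v ∈ A)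
    unfold rn
    omega
  have h2 : (A.filter fun x => x + u ∈ A).card = (A.filter fun x => x + -u ∈ A).card := by
    apply Finset.card_bij (fun x _ => x + u)
    · intro x hx
      simp only [Finset.mem_filter] at hx ⊢
      refine ⟨hx.2, ?_⟩
      simpa using hx.1
    · intro x _ y _ h
      simpa using h
    · intro y hy
      simp only [Finset.mem_filter] at hy
      refine ⟨y + -u, ?_, by ring⟩
      simp only [Finset.mem_filter]
      refine ⟨hy.2, ?_⟩
      simpa using hy.1
  have := h1 u
  have := h1 (-u)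
  omega

/-- the edge boundary -/
def bd (A : Finset ℤ) : ℕ := rn A (-1) + rn A 1 + rn A (-8) + rn A 8

lemma bd_eq (A : Finset ℤ) : bd A = 2 * (rn A (-1) + rn A (-8)) := by
  unfold bd
  rw [← rn_neg A 1, ← rn_neg A 8]
  ring

/-- start of the run -/
lemma run_start (A : Finset ℤ) (u : ℤ) (hu : 0 < u) (x : ℤ) (hx : x ∈ A) :
    ∃ k : ℕ, x - k * u ∈ A ∧ x - k * u - u ∉ A ∧ ∀ j : ℕ, j ≤ k → x - j * u ∈ A := by
  classical
  have hex : ∃ k : ℕ, x - k * u ∉ A := by
    by_contra h
    push Not at h
    have hinf : Set.Infinite (A : Set ℤ) := by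
      apply Set.infinite_of_injective_forall_mem (f := fun k : ℕ => x - k * u)
      · intro a b hab
        have h3 : ((a : ℤ) - b) * u = 0 := by
          simp only at hab
          linarith
        rcases mul_eq_zero.1 h3 with h4 | h4
        · omega
        · omega
      · intro k
        exact h k
    exact hinf A.finite_toSet
  let m := Nat.find hex
  have hm : x - m * u ∉ A := Nat.find_spec hex
  have hlt : ∀ j : ℕ, j < m → x - j * u ∈ A := fun j hj => by
    have := Nat.find_min hex hj
    simpa using this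
  have hm0 : m ≠ 0 := by
    intro h
    rw [h] at hm
    simp at hm
    exact hm hx
  obtain ⟨k, hk⟩ := Nat.exists_eq_succ_of_ne_zero hm0
  refine ⟨k, hlt k (by omega), ?_, fun j hj => hlt j (by omega)⟩
  rw [hk] at hm
  push_cast at hm
  have : x - k * u - u = x - ((k : ℤ) + 1) * u := by ring
  rw [this]
  exact hm

/-- the residues hit by `A` -/
def hit (A : Finset ℤ) : Finset ℤ := A.image (· % 8)

lemma hit_le (A : Finset ℤ) : (hit A).card ≤ rn A (-8) := by
  classical
  unfold rn
  have : hit A ⊆ (A.filter fun x => x + -8 ∉ A).image (· % 8) := by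
    intro r hr
    unfold hit at hr
    rw [Finset.mem_image] at hr ⊢
    obtain ⟨x, hx, rfl⟩ := hr
    obtain ⟨k, h1, h2, _⟩ := run_start A 8 (by norm_num) x hx
    refine ⟨x - k * 8, ?_, by omega⟩
    rw [Finset.mem_filter]
    refine ⟨h1, ?_⟩
    have : x - k * 8 + -8 = x - k * 8 - 8 := by ring
    rw [this]
    exact h2
  exact (Finset.card_le_card this).trans Finset.card_image_le

lemma hit_sub (A : Finset ℤ) : hit A ⊆ Finset.Ico 0 8 := by
  intro r hr
  unfold hit at hr
  rw [Finset.mem_image] at hr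
  obtain ⟨x, _, rfl⟩ := hr
  rw [Finset.mem_Ico]
  constructor <;> omega

lemma rn_pos (A : Finset ℤ) (hA : A.Nonempty) : 1 ≤ rn A (-1) := by
  obtain ⟨x, hx⟩ := hA
  obtain ⟨k, h1, h2, _⟩ := run_start A 1 (by norm_num) x hx
  unfold rn
  apply Finset.card_pos.2
  refine ⟨x - k * 1, ?_⟩
  rw [Finset.mem_filter]
  refine ⟨h1, ?_⟩
  have : x - k * 1 + -1 = x - k * 1 - 1 := by ring
  rw [this]
  exact h2

/-- if a residue class is missed, the distance to the start of the 1-run is at most six -/
lemma short_run (A : Finset ℤ) (c : ℤ) (hc0 : 0 ≤ c) (hc8 : c < 8) (hc : c ∉ hit A) (x : ℤ)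
    (k : ℕ) (h : ∀ j : ℕ, j ≤ k → x - j * 1 ∈ A) : k ≤ 6 := by
  by_contra hk
  push Not at hk
  apply hc
  unfold hit
  rw [Finset.mem_image]
  refine ⟨x - (((x - c) % 8).toNat : ℕ) * 1, h _ ?_, ?_⟩
  · omega
  · omega

lemma card_le_seven (A : Finset ℤ) (c : ℤ) (hc0 : 0 ≤ c) (hc8 : c < 8) (hc : c ∉ hit A) :
    A.card ≤ 7 * rn A (-1) := by
  classical
  have hsub : A ⊆ ((A.filter fun x => x + -1 ∉ A) ×ˢ Finset.range 7).image
      (fun p : ℤ × ℕ => p.1 + p.2) := by
    intro x hx
    obtain ⟨k, h1, h2, h3⟩ := run_start A 1 (by norm_num) x hx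
    have hk := short_run A c hc0 hc8 hc x k h3
    rw [Finset.mem_image]
    refine ⟨(x - k * 1, k), ?_, by simp⟩
    rw [Finset.mem_product, Finset.mem_filter, Finset.mem_range]
    refine ⟨⟨h1, ?_⟩, by simp only; omega⟩
    have : x - k * 1 + -1 = x - k * 1 - 1 := by ring
    rw [this]
    exact h2
  have := (Finset.card_le_card hsub).trans Finset.card_image_le
  rw [Finset.card_product, Finset.card_range] at this
  unfold rn
  omega

lemma card_le_mul (A : Finset ℤ) (c : ℤ) (hc0 : 0 ≤ c) (hc8 : c < 8) (hc : c ∉ hit A) :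
    A.card ≤ rn A (-1) * rn A (-8) := by
  classical
  choose! s hs1 hs2 hs3 using run_start A 1 (by norm_num)
  choose! t ht1 ht2 ht3 using run_start A 8 (by norm_num)
  unfold rn
  rw [← Finset.card_product]
  apply Finset.card_le_card_of_injOn (fun x => (x - s x * 1, x - t x * 8))
  · intro x hx
    simp only [Finset.coe_product, Set.mem_prod, Finset.mem_coe, Finset.mem_filter]
    refine ⟨⟨hs1 x hx, ?_⟩, ht1 x hx, ?_⟩
    · have : x - s x * 1 + -1 = x - s x * 1 - 1 := by ring
      rw [this]
      exact hs2 x hx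
    · have : x - t x * 8 + -8 = x - t x * 8 - 8 := by ring
      rw [this]
      exact ht2 x hx
  · intro x hx y hy hxy
    simp only [Prod.mk.injEq] at hxy
    have h1 := short_run A c hc0 hc8 hc x (s x) (hs3 x hx)
    have h2 := short_run A c hc0 hc8 hc y (s y) (hs3 y hy)
    omega

lemma missed (A : Finset ℤ) (h : (hit A).card ≤ 7) : ∃ c : ℤ, 0 ≤ c ∧ c < 8 ∧ c ∉ hit A := by
  by_contra hcon
  push Not at hcon
  have : Finset.Ico (0 : ℤ) 8 ⊆ hit A := by
    intro c hc
    rw [Finset.mem_Ico] at hc
    exact hcon c hc.1 hc.2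
  have := Finset.card_le_card this
  simp at this
  omega

/-- optimal sets of size 21 are intervals -/
lemma interval (A : Finset ℤ) (hA : A.card = 21) (hb : bd A ≤ 18) :
    ∃ s : ℤ, ∀ x ∈ A, s ≤ x ∧ x ≤ s + 20 := by
  classical
  rw [bd_eq] at hb
  have hne : A.Nonempty := by
    rw [← Finset.card_pos]; omega
  have h1 := rn_pos A hne
  by_cases hh : (hit A).card ≤ 7
  · obtain ⟨c, hc0, hc8, hc⟩ := missed A hh
    have h2 := card_le_mul A c hc0 hc8 hc
    have h3 : rn A (-1) + rn A (-8) ≤ 9 := by omega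
    exfalso
    have h4 : rn A (-1) ≤ 9 := by omega
    interval_cases hr : rn A (-1) <;> omega
  · have h2 := hit_le A
    have h3 : rn A (-1) = 1 := by omega
    unfold rn at h3
    rw [Finset.card_eq_one] at h3
    obtain ⟨s, hs⟩ := h3
    have hstart : ∀ x ∈ A, ∃ k : ℕ, x = s + k ∧ ∀ j : ℕ, j ≤ k → x - j * 1 ∈ A := by
      intro x hx
      obtain ⟨k, h5, h6, h7⟩ := run_start A 1 (by norm_num) x hx
      have h8 : x - k * 1 ∈ A.filter fun x => x + -1 ∉ A := by
        rw [Finset.mem_filter]
        refine ⟨h5, ?_⟩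
        have : x - k * 1 + -1 = x - k * 1 - 1 := by ring
        rw [this]
        exact h6
      rw [hs, Finset.mem_singleton] at h8
      exact ⟨k, by linarith, h7⟩
    refine ⟨s, fun x hx => ?_⟩
    obtain ⟨k, hk, hj⟩ := hstart x hx
    have hsub : (Finset.range (k + 1)).image (fun j : ℕ => x - j * 1) ⊆ A := by
      intro y hy
      rw [Finset.mem_image] at hy
      obtain ⟨j, hj1, rfl⟩ := hy
      rw [Finset.mem_range] at hj1
      exact hj j (by omega)
    have hc := Finset.card_le_card hsub
    rw [Finset.card_image_of_injective _ (by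
      intro a b hab
      simp only at hab
      omega), Finset.card_range] at hc
    omega

/-- no optimal set of size 16 lies in an interval with 21 elements -/
lemma no16 (A : Finset ℤ) (hA : A.card = 16) (hb : bd A ≤ 16) (s : ℤ)
    (hs : ∀ x ∈ A, s ≤ x ∧ x ≤ s + 20) : False := by
  classical
  rw [bd_eq] at hb
  have hne : A.Nonempty := by
    rw [← Finset.card_pos]; omega
  have h1 := rn_pos A hne
  have h2 := hit_le A
  have h3 : A.card ≤ 3 * (hit A).card := by
    have hsub : A ⊆ ((hit A) ×ˢ Finset.range 3).image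
        (fun p : ℤ × ℕ => s + (p.1 - s) % 8 + 8 * p.2) := by
      intro x hx
      rw [Finset.mem_image]
      obtain ⟨ha, hb'⟩ := hs x hx
      refine ⟨(x % 8, ((x - s) / 8).toNat), ?_, ?_⟩
      · rw [Finset.mem_product, Finset.mem_range]
        refine ⟨Finset.mem_image_of_mem _ hx, ?_⟩
        simp only
        omega
      · simp only
        omega
    have := (Finset.card_le_card hsub).trans Finset.card_image_le
    rw [Finset.card_product, Finset.card_range] at this
    omega
  have h4 : (hit A).card ≤ 7 := by omega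
  obtain ⟨c, hc0, hc8, hc⟩ := missed A h4
  have h5 := card_le_seven A c hc0 hc8 hc
  omega

/-- the box -/
def box : Finset ℤ := {0, 1, 2, 3, 8, 9, 10, 11, 16, 17, 18, 19, 24, 25, 26, 27}

/-- the interval -/
def itv : Finset ℤ := {0, 1, 2, 3, 4, 5, 6, 7, 8, 9, 10, 11, 12, 13, 14, 15, 16, 17, 18, 19, 20}

lemma box_card : box.card = 16 := by decide

lemma itv_card : itv.card = 21 := by decide

lemma box_bd : bd box = 16 := by decide +kernel

lemma itv_bd : bd itv = 18 := by decide +kernel

theorem main (B : ℕ → Finset ℤ) (hsub : B 16 ⊆ B 21) (hc16 : (B 16).card = 16)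
    (hc21 : (B 21).card = 21)
    (h : ∀ n : ℕ, 1 ≤ n → ∀ A : Finset ℤ, A.card = n → bd (B n) ≤ bd A) : False := by
  have h16 := h 16 (by norm_num) box box_card
  have h21 := h 21 (by norm_num) itv itv_card
  rw [box_bd] at h16
  rw [itv_bd] at h21
  obtain ⟨s, hs⟩ := interval (B 21) hc21 h21
  exact no16 (B 16) hc16 h16 s (fun x hx => hs x (hsub hx))

end Pool.Agent.W84.Nest
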